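import Pool.Agent.Helper442.CMC.Bound

open Set MeasureTheory
open scoped Manifold ContDiff InnerProductSpace

namespace Pool.Agent.Results.MP_07eaf5_gt.IntervalFails

/-- The Euclidean plane. -/
abbrev E2 := EuclideanSpace ℝ (Fin 2)

/-- Euclidean three-space. -/
abbrev E3 := EuclideanSpace ℝ (Fin 3)

/-- The plane `P = {x₃ = 0}` of three-space, parametrised by `ℝ²`. -/
def inclP (x : E2) : E3 := !₂[x 0, x 1, 0]

/-- `γ` is a smooth regular parametrisation, of period `1` and injective on `[0, 1)`, of a simple
closed curve of the plane. -/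
structure IsSimpleClosed (γ : ℝ → E2) : Prop where
  smooth : ContDiff ℝ ∞ γ
  periodic : Function.Periodic γ 1
  regular : ∀ t, deriv γ t ≠ 0
  injective : InjOn γ (Ico 0 1)

/-- The length of the curve. -/
noncomputable def length (γ : ℝ → E2) : ℝ := ∫ t in (0:ℝ)..1, ‖deriv γ t‖

/-- `C ⊆ ℝ²` is a closed convex curve enclosing the domain `D`: the set `D` is open, convex,
bounded and nonempty, and `C` is its topological boundary. -/
structure IsConvexCurve (C D : Set E2) : Prop where
  isOpen : IsOpen D
  convex : Convex ℝ D
  isBounded : Bornology.IsBounded D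
  nonempty : D.Nonempty
  frontier_eq : frontier D = C

/-- The area of the domain `D`. -/
noncomputable def area (D : Set E2) : ℝ := (volume D).toReal

/-- The dot product of `ℝ³`. -/
noncomputable def dot (x y : E3) : ℝ := ⟪x, y⟫_ℝ

section Surface

variable {M : Type*} [TopologicalSpace M] [ChartedSpace (EuclideanHalfSpace 2) M]

/-- The map `f` from the surface with boundary `M` to `ℝ³` is smooth (up to the boundary). -/
def IsSmooth (f : M → E3) : Prop := ContMDiff (𝓡∂ 2) 𝓘(ℝ, E3) ∞ f

/-- The tangent plane of the surface with boundary `M` at `p`. -/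
abbrev Tan (p : M) := TangentSpace (𝓡∂ 2) p

/-- The differential of `f : M → ℝ³` at `p`, a linear map from the tangent plane, which is the
space `ℝ²` (identified by the preferred chart at `p`), to `ℝ³`. -/
noncomputable def diffL (f : M → E3) (p : M) : E2 →L[ℝ] E3 := mfderiv (𝓡∂ 2) 𝓘(ℝ, E3) f p

/-- The differential of `f : M → ℝ³` at `p`, applied to the tangent vector `v`. -/
noncomputable def dmap (f : M → E3) (p : M) (v : Tan p) : E3 := diffL f p v

/-- The boundary of the surface with boundary `M`. -/
def bdry (M : Type*) [TopologicalSpace M] [ChartedSpace (EuclideanHalfSpace 2) M] : Set M :=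
  (𝓡∂ 2).boundary M

/-- `v`, `w` is an orthonormal basis of the tangent plane at `p` for the metric induced by `f`. -/
def IsOrthonormal (f : M → E3) (p : M) (v w : Tan p) : Prop :=
  dot (dmap f p v) (dmap f p v) = 1 ∧ dot (dmap f p w) (dmap f p w) = 1 ∧
    dot (dmap f p v) (dmap f p w) = 0

/-- `f : M → ℝ³` is a smooth immersion of the surface with boundary `M`, with smooth unit
normal field `N`, whose mean curvature (with respect to `N`) is the constant `H`. The mean
curvature at `p` is `-1/2` times the trace of the derivative of `N`, computed in a basis of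
`T_p M` orthonormal for the induced metric. -/
structure IsCMCImmersion (f N : M → E3) (H : ℝ) : Prop where
  smooth_map : IsSmooth f
  immersion : ∀ p : M, Function.Injective (dmap f p)
  smooth_normal : IsSmooth N
  norm_normal : ∀ p : M, dot (N p) (N p) = 1
  inner_normal : ∀ (p : M) (v : Tan p), dot (N p) (dmap f p v) = 0
  mean_curvature : ∀ (p : M) (v w : Tan p), IsOrthonormal f p v w →
    -(dot (dmap N p v) (dmap f p v) + dot (dmap N p w) (dmap f p w)) / 2 = H

/-- The immersion `f` maps the boundary of `M` bijectively onto the set `C` of the plane `P`. -/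
def BoundaryIs (f : M → E3) (C : Set E2) : Prop :=
  InjOn f (bdry M) ∧ f '' bdry M = inclP '' C

lemma IsCMCImmersion.toOld {f N : M → E3} {H : ℝ} (h : IsCMCImmersion f N H) :
    Helper608.IsCMCImmersion f N H := by
  refine ⟨h.smooth_map, h.immersion, h.smooth_normal, ?_, h.inner_normal, ?_⟩
  · intro p
    have h1 := h.norm_normal p
    unfold dot at h1
    rw [real_inner_self_eq_norm_sq] at h1
    nlinarith [norm_nonneg (N p)]
  · intro p v w hv hw hvw
    apply h.mean_curvature p v w
    refine ⟨?_, ?_, hvw⟩
    · unfold dot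
      rw [real_inner_self_eq_norm_sq]
      have : ‖dmap f p v‖ = 1 := hv
      rw [this]; norm_num
    · unfold dot
      rw [real_inner_self_eq_norm_sq]
      have : ‖dmap f p w‖ = 1 := hw
      rw [this]; norm_num

end Surface

lemma length_eq (γ : ℝ → E2) : length γ = ∫ t in Ico (0:ℝ) 1, ‖deriv γ t‖ := by
  rw [length, intervalIntegral.integral_of_le zero_le_one, integral_Ico_eq_integral_Ioo,
    integral_Ioc_eq_integral_Ioo]

/-- There are a smooth simple closed plane curve `C` (the range of `γ`), enclosing a convex
domain `D`, and a number `h₀` with `0 < h₀ < L / (2 |D|)`, where `L` is the length of `C`, such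
that every compact orientable immersed surface of constant mean curvature `H` with boundary `C`
satisfies `|H| ≤ h₀`.  Hence no value of the interval `(h₀, L / (2 |D|)]` is attained. -/
theorem result :
    ∃ (γ : ℝ → E2) (D : Set E2) (h₀ : ℝ), IsSimpleClosed γ ∧ IsConvexCurve (range γ) D ∧
      0 < h₀ ∧ h₀ < length γ / (2 * area D) ∧
      ∀ (M : Type*) [TopologicalSpace M] [T2Space M] [CompactSpace M]
        [ChartedSpace (EuclideanHalfSpace 2) M] [IsManifold (𝓡∂ 2) ∞ M]
        (f N : M → E3) (H : ℝ),
        IsCMCImmersion f N H → BoundaryIs f (range γ) → |H| ≤ h₀ := by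
  refine ⟨Helper608.Egg.gam, Helper608.Egg.Dom, Helper442.CMC.h0,
    ⟨Helper608.Egg.contDiff_gam, Helper608.Egg.gam_periodic, Helper608.Egg.deriv_gam_ne,
      Helper608.Egg.gam_inj⟩,
    ⟨Helper608.Egg.isOpen_Dom, Helper608.Egg.convex_Dom, Helper608.Egg.isBounded_Dom,
      Helper608.Egg.nonempty_Dom, Helper608.Egg.frontier_Dom⟩, Helper442.CMC.h0_pos, ?_, ?_⟩
  · rw [length_eq]
    exact Helper442.CMC.h0_lt
  · intro M _ _ _ _ _ f N H h hb
    exact Helper442.CMC.egg_bound h.toOld hb.1 hb.2

end Pool.Agent.Results.MP_07eaf5_gt.IntervalFails
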